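import Mathlib

/-! Finite differences, a filtration of a function field, and a finiteness lemma. -/

open MvPolynomial Module Filter

namespace Pool.Agent.Lib.MP_e9c0f3_ag.CL

theorem num_pos : ∀ (n : ℕ) (s : ℕ → ℤ), (∀ᶠ d in atTop, 1 ≤ (fwdDiff 1)^[n] s d) →
    ∀ᶠ d in atTop, 1 ≤ s d
  | 0, _, h => h
  | n + 1, s, h => by
    rw [Function.iterate_succ_apply] at h
    obtain ⟨d0, hd⟩ := eventually_atTop.1 (num_pos n _ h)
    have key : ∀ k : ℕ, s d0 + k ≤ s (d0 + k) := by
      intro k
      induction k with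
      | zero => simp
      | succ k ih =>
        have h1 := hd (d0 + k) (by omega)
        rw [fwdDiff] at h1
        rw [← add_assoc]
        push_cast
        omega
    refine eventually_atTop.2 ⟨d0 + (1 - s d0).toNat, fun d hd' => ?_⟩
    obtain ⟨k, rfl⟩ : ∃ k, d = d0 + k := ⟨d - d0, by omega⟩
    have := key k
    omega

theorem num_choose (n m d : ℕ) :
    (fwdDiff 1)^[n] (fun x : ℕ => ((x + m).choose n : ℤ)) d = 1 := by
  have h1 := fwdDiff_iter_comp_add 1 (fun x : ℕ => (x.choose n : ℤ)) m n d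
  have h2 := congrFun (fwdDiff_iter_choose 0 n) (d + m)
  rw [h1]
  simpa using h2

theorem num_le (n k : ℕ) : (2 * k + n).choose n ≤ 2 ^ n * (k + n).choose n := by
  induction n with
  | zero => simp
  | succ n ih =>
    have h1 := Nat.add_one_mul_choose_eq (2 * k + n) n
    have h2 := Nat.add_one_mul_choose_eq (k + n) n
    refine Nat.le_of_mul_le_mul_right (c := n + 1) ?_ (by omega)
    rw [← add_assoc, ← h1, ← add_assoc, mul_assoc, ← h2, pow_succ]
    calc (2 * k + n + 1) * (2 * k + n).choose n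
        ≤ (2 * (k + n + 1)) * (2 ^ n * (k + n).choose n) := Nat.mul_le_mul (by omega) ih
      _ = _ := by ring

theorem num_ge (k : ℕ) : ∀ n m : ℕ, n ≤ m → 2 ^ n * (k + n).choose n ≤ (2 * k + m + n).choose n
  | 0, _, _ => by simp
  | n + 1, m, h => by
    have ih := num_ge k n m (by omega)
    have h1 := Nat.add_one_mul_choose_eq (2 * k + m + n) n
    have h2 := Nat.add_one_mul_choose_eq (k + n) n
    refine Nat.le_of_mul_le_mul_right (c := n + 1) ?_ (by omega)
    rw [← add_assoc, ← add_assoc, ← h1, mul_assoc, ← h2, pow_succ]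
    calc 2 ^ n * 2 * ((k + n + 1) * (k + n).choose n)
        = (2 * (k + n + 1)) * (2 ^ n * (k + n).choose n) := by ring
      _ ≤ _ := Nat.mul_le_mul (by omega) ih

/-- The numerical heart: an integral leading coefficient leaves no room for a kernel. -/
theorem num_main (n e1 e2 : ℕ) (a b : ℕ → ℕ) (ρ : ℤ)
    (hρ : ∀ᶠ d in atTop, (fwdDiff 1)^[n] (fun x => (a x : ℤ)) d = ρ)
    (ha : ∀ d, (d / 2 + n).choose n ≤ a (d + e1)) (hb : ∀ d, (d / 2 + n).choose n ≤ b (d + e2))
    (hab : ∀ d, a (d + e1) + b d ≤ 2 ^ n * (d / 2 + n).choose n) : False := by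
  have hs : ∀ m : ℕ, ∀ᶠ d in atTop, (fwdDiff 1)^[n] (fun x => (a (x + m) : ℤ)) d = ρ := by
    intro m
    obtain ⟨d0, hd⟩ := eventually_atTop.1 hρ
    refine eventually_atTop.2 ⟨d0, fun d h => ?_⟩
    rw [fwdDiff_iter_comp_add 1 (fun x : ℕ => (a x : ℤ)) m n d]
    exact hd _ (by omega)
  have hlow : ∀ d, (d + n).choose n ≤ 2 ^ n * ((d + 1) / 2 + n).choose n := fun d =>
    le_trans (Nat.choose_le_choose n (by omega)) (num_le n _)
  have h2 : (0 : ℤ) < 2 ^ n := by positivity
  have hpos : 1 ≤ ρ := by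
    by_contra hneg
    have h1 : ∀ᶠ d in atTop, 1 ≤ (fwdDiff 1)^[n] ((fun x : ℕ => ((x + n).choose n : ℤ)) +
        (-(2 : ℤ) ^ n) • fun x : ℕ => (a (x + (1 + e1)) : ℤ)) d := by
      filter_upwards [hs (1 + e1)] with d hd
      rw [fwdDiff_iter_add, fwdDiff_iter_const_smul, Pi.add_apply, Pi.smul_apply, num_choose, hd,
        smul_eq_mul]
      nlinarith
    obtain ⟨d, hd⟩ := (num_pos n _ h1).exists
    have h3 := le_trans (hlow d) (Nat.mul_le_mul_left _ (ha (d + 1)))
    rw [Pi.add_apply, Pi.smul_apply, smul_eq_mul, ← add_assoc] at hd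
    have h4 : ((d + n).choose n : ℤ) ≤ 2 ^ n * a (d + 1 + e1) := by exact_mod_cast h3
    linarith
  have h1 : ∀ᶠ d in atTop, 1 ≤ (fwdDiff 1)^[n] (((fun x : ℕ => ((x + n).choose n : ℤ)) +
      ((2 : ℤ) ^ n) • fun x : ℕ => (a (x + (1 + e2 + e1)) : ℤ)) +
      (-(2 : ℤ) ^ n) • fun x : ℕ => ((x + (1 + e2 + n + n)).choose n : ℤ)) d := by
    filter_upwards [hs (1 + e2 + e1)] with d hd
    rw [fwdDiff_iter_add, fwdDiff_iter_add, fwdDiff_iter_const_smul, fwdDiff_iter_const_smul,
      Pi.add_apply, Pi.add_apply, Pi.smul_apply, Pi.smul_apply, num_choose, num_choose, hd,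
      smul_eq_mul, smul_eq_mul]
    nlinarith
  obtain ⟨d, hd⟩ := (num_pos n _ h1).exists
  have h3 := le_trans (hlow d) (Nat.mul_le_mul_left _ (hb (d + 1)))
  have h5 := le_trans (hab (d + 1 + e2)) (le_trans (num_ge _ n n le_rfl)
    (Nat.choose_le_choose n (show _ ≤ d + (1 + e2 + n + n) by omega)))
  simp only [Pi.add_apply, Pi.smul_apply, smul_eq_mul] at hd
  have h4 : ((d + n).choose n : ℤ) ≤ 2 ^ n * b (d + 1 + e2) := by exact_mod_cast h3
  have h6 : (a (d + 1 + e2 + e1) : ℤ) + b (d + 1 + e2) ≤ (d + (1 + e2 + n + n)).choose n := by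
    exact_mod_cast h5
  rw [show d + (1 + e2 + e1) = d + 1 + e2 + e1 by omega] at hd
  nlinarith

theorem num_const (h : ℕ → ℤ) (h0 : ∀ d, 0 ≤ h d) (d0 : ℕ) (hd : ∀ d, d0 ≤ d → h (d + 1) ≤ h d) :
    ∃ ρ : ℤ, ∀ᶠ d in atTop, h d = ρ := by
  classical
  have hex : ∃ v : ℕ, ∃ d, d0 ≤ d ∧ h d = v := ⟨(h d0).toNat, d0, le_rfl, by have := h0 d0; omega⟩
  obtain ⟨d1, h1, h2⟩ := Nat.find_spec hex
  refine ⟨Nat.find hex, eventually_atTop.2 ⟨d1, fun d hd1 => ?_⟩⟩
  have h3 : h d ≤ h d1 := by
    induction hd1 with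
    | refl => exact le_rfl
    | step hm ih => exact le_trans (hd _ (le_trans h1 hm)) ih
  have h4 : Nat.find hex ≤ (h d).toNat :=
    Nat.find_min' hex ⟨d, le_trans h1 hd1, by have := h0 d; omega⟩
  have := h0 d
  omega

variable {K : Type} [Field K] {n : ℕ}

theorem finrank_hom' (n : ℕ) (K : Type) [Field K] (k : ℕ) :
    finrank K (homogeneousSubmodule (Fin n) K k) = (n + k - 1).choose k := by
  have e : homogeneousSubmodule (Fin n) K k = restrictSupport K
      ((Finset.univ.finsuppAntidiag k : Finset (Fin n →₀ ℕ)) : Set (Fin n →₀ ℕ)) := by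
    rw [homogeneousSubmodule_eq_finsupp_supported, restrictSupport]
    congr 1
    ext d
    simp [Finsupp.degree_eq_sum]
  rw [e, finrank_eq_nat_card_basis (basisRestrictSupport K _), Nat.card_coe_set_eq,
    Set.ncard_coe_finset, Finset.card_finsuppAntidiag_nat_eq_choose, Finset.card_univ,
    Fintype.card_fin]

theorem finrank_hom (n : ℕ) (K : Type) [Field K] (k : ℕ) :
    finrank K (homogeneousSubmodule (Fin (n + 1)) K k) = (k + n).choose n := by
  rw [finrank_hom', show n + 1 + k - 1 = k + n by omega, Nat.choose_symm_add]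

instance fin_hom (n k : ℕ) : Module.Finite K (homogeneousSubmodule (Fin n) K k) :=
  Module.Finite.iff_fg.2 (homogeneousSubmodule_fg (Fin n) K k)

theorem hom_succ {σ : Type} {k : ℕ} {p : MvPolynomial σ K} (hp : p.IsHomogeneous (k + 1))
    (P : MvPolynomial σ K → Prop) (h0 : P 0) (hadd : ∀ a b, P a → P b → P (a + b))
    (hX : ∀ i (q : MvPolynomial σ K), q.IsHomogeneous k → P (X i * q)) : P p := by
  classical
  rw [p.as_sum]
  refine Finset.sum_induction _ P hadd h0 fun m hm => ?_
  have h1 : m.degree = k + 1 := by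
    by_contra h
    exact (mem_support_iff.1 hm) (hp.coeff_eq_zero h)
  have h2 : m ≠ 0 := by
    rintro rfl
    simp at h1
  obtain ⟨i, hi⟩ := Finsupp.ne_iff.1 h2
  have h3 : m = Finsupp.single i 1 + (m - Finsupp.single i 1) := by
    rw [add_comm, Finsupp.sub_add_single_one_cancel (by simpa using hi)]
  have h4 : (m - Finsupp.single i 1).degree = k := by
    have h5 := congrArg Finsupp.degree h3
    rw [map_add, Finsupp.degree_single] at h5
    omega
  have h6 := hX i _ (isHomogeneous_monomial (coeff m p) h4)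
  rwa [X, monomial_mul, one_mul, ← h3] at h6

/-- Dehomogenisation. -/
noncomputable def deh (n : ℕ) (K : Type) [Field K] :
    MvPolynomial (Fin (n + 1)) K →ₐ[K] MvPolynomial (Fin n) K :=
  aeval (Fin.cons 1 X : Fin (n + 1) → MvPolynomial (Fin n) K)

theorem deh_inj {k : ℕ} {p : MvPolynomial (Fin (n + 1)) K} (hp : p.IsHomogeneous k)
    (h : deh n K p = 0) : p = 0 := by
  have e : ∀ q, deh n K q = Polynomial.eval 1 (finSuccEquiv K n q) := by
    intro q
    have : deh n K = ((Polynomial.aeval (1 : MvPolynomial (Fin n) K)).restrictScalars K).comp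
        (finSuccEquiv K n).toAlgHom := by
      refine algHom_ext fun i => ?_
      refine Fin.cases ?_ (fun j => ?_) i
      · simp [deh, finSuccEquiv_X_zero]
      · simp [deh, finSuccEquiv_X_succ]
    rw [this]
    simp
  rw [e, Polynomial.eval_eq_sum_range] at h
  apply (finSuccEquiv K n).injective
  rw [map_zero]
  ext1 i
  have hc : ∀ j, ((finSuccEquiv K n p).coeff j).IsHomogeneous (k - j) ∧
      (k < j → (finSuccEquiv K n p).coeff j = 0) := by
    intro j
    have hz : k < j → (finSuccEquiv K n p).coeff j = 0 := by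
      intro hj
      ext m
      rw [finSuccEquiv_coeff_coeff, coeff_zero]
      refine hp.coeff_eq_zero ?_
      rw [Finsupp.degree_eq_sum, Fin.sum_univ_succ, Finsupp.cons_zero]
      omega
    refine ⟨?_, hz⟩
    by_cases hj : k < j
    · rw [hz hj]
      exact isHomogeneous_zero _ _ _
    · exact hp.finSuccEquiv_coeff_isHomogeneous j (k - j) (by omega)
  by_cases hi : k < i
  · simpa using (hc i).2 hi
  have h1 := congrArg (homogeneousComponent (k - i)) h
  rw [map_sum, map_zero, Finset.sum_eq_single i] at h1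
  · rwa [one_pow, mul_one, homogeneousComponent_eq_self (hc i).1] at h1
  · intro j _ hj
    rw [one_pow, mul_one]
    by_cases hk : k < j
    · rw [(hc j).2 hk, map_zero]
    · rw [homogeneousComponent_of_mem (hc j).1, if_neg (by omega)]
  · intro hi'
    rw [Polynomial.coeff_eq_zero_of_natDegree_lt (by simpa using hi'), zero_mul, map_zero]

variable {F : Type} [Field F] [Algebra K F]

/-- Polynomials of degree at most `k` in the elements `c`. -/
noncomputable def Zf (K : Type) [Field K] [Algebra K F] (c : Fin n → F) (k : ℕ) : Submodule K F :=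
  (homogeneousSubmodule (Fin (n + 1)) K k).map ((aeval c).comp (deh n K)).toLinearMap

variable {c : Fin n → F}

instance fin_Zf (k : ℕ) : Module.Finite K (Zf K c k) := by
  unfold Zf
  infer_instance

theorem finrank_Zf (hc : Function.Injective (aeval c : MvPolynomial (Fin n) K →ₐ[K] F)) (k : ℕ) :
    finrank K (Zf K c k) = (k + n).choose n := by
  rw [← finrank_hom n K k, Zf, ← LinearMap.range_domRestrict]
  refine LinearMap.finrank_range_of_inj ((injective_iff_map_eq_zero _).2 fun p hp => ?_)
  exact Subtype.ext (deh_inj p.2 (hc (by simpa using hp)))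

theorem Zf_mul {k l : ℕ} {x y : F} (hx : x ∈ Zf K c k) (hy : y ∈ Zf K c l) :
    x * y ∈ Zf K c (k + l) := by
  obtain ⟨p, hp, rfl⟩ := hx
  obtain ⟨q, hq, rfl⟩ := hy
  exact ⟨p * q, IsHomogeneous.mul hp hq, map_mul ((aeval c).comp (deh n K)) p q⟩

theorem Zf_one : (1 : F) ∈ Zf K c 0 := ⟨1, isHomogeneous_one _ _, map_one ((aeval c).comp (deh n K))⟩

theorem Zf_one' : (1 : F) ∈ Zf K c 1 := ⟨X 0, isHomogeneous_X _ _, by simp [deh]⟩

theorem Zf_c (j : Fin n) : c j ∈ Zf K c 1 := ⟨X j.succ, isHomogeneous_X _ _, by simp [deh]⟩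

theorem Zf_mono {k l : ℕ} (h : k ≤ l) : Zf K c k ≤ Zf K c l := by
  induction h with
  | refl => exact le_rfl
  | step _ ih => exact fun x hx => by simpa using Zf_mul (ih hx) Zf_one'

theorem Zf_all (p : MvPolynomial (Fin n) K) : ∃ k, aeval c p ∈ Zf K c k := by
  induction p using MvPolynomial.induction_on with
  | C a => exact ⟨0, by simpa [Algebra.smul_def] using (Zf K c 0).smul_mem a Zf_one⟩
  | add p q hp hq =>
    obtain ⟨k, hk⟩ := hp
    obtain ⟨l, hl⟩ := hq
    exact ⟨k + l, by
      simpa using add_mem (Zf_mono (Nat.le_add_right k l) hk) (Zf_mono (Nat.le_add_left l k) hl)⟩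
  | mul_X p j hp =>
    obtain ⟨k, hk⟩ := hp
    exact ⟨k + 1, by simpa using Zf_mul hk (Zf_c j)⟩

theorem Zf_zero {x : F} (hx : x ∈ Zf K c 0) : ∃ a : K, x = a • (1 : F) := by
  obtain ⟨p, hp, rfl⟩ := hx
  have h1 : p = C (coeff 0 p) := by
    have := (mem_homogeneousSubmodule 0 p).1 hp
    exact totalDegree_eq_zero_iff_eq_C.1 ((totalDegree_zero_iff_isHomogeneous _).2 this)
  refine ⟨coeff 0 p, ?_⟩
  rw [h1]
  simp [Algebra.smul_def]

theorem Zf_succ {k : ℕ} {x : F} (hx : x ∈ Zf K c (k + 1)) (P : F → Prop) (h0 : P 0)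
    (hadd : ∀ a b, P a → P b → P (a + b)) (h1 : ∀ y ∈ Zf K c k, P y)
    (h2 : ∀ j, ∀ y ∈ Zf K c k, P (c j * y)) : P x := by
  obtain ⟨p, hp, rfl⟩ := hx
  refine hom_succ (k := k) hp (fun q => P (((aeval c).comp (deh n K)) q)) (by simpa using h0)
    (fun a b ha hb => by simpa using hadd _ _ ha hb) fun i q hq => ?_
  rw [map_mul]
  refine Fin.cases ?_ (fun j => ?_) i
  · simpa [deh] using h1 _ ⟨q, hq, rfl⟩
  · simpa [deh] using h2 j _ ⟨q, hq, rfl⟩

section

variable {E : Type} [AddCommGroup E] [Module F E] [Module K E] [IsScalarTower K F E]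

/-- The filtration spanned by a set of vectors. -/
def Yf (K : Type) [Field K] [Algebra K F] [Module K E] (c : Fin n → F) (s : Set E) (k : ℕ) :
    Submodule K E :=
  Submodule.span K {y | ∃ z ∈ Zf K c k, ∃ x ∈ s, y = z • x}

open Polynomial in
/-- Hilbert's basis theorem for filtered pieces. -/
theorem noeth (c : Fin n → F) {s : Set E} (hs : s.Finite) (Z : ℕ → Submodule K E)
    (h0 : ∀ d, Z d ≤ Yf K c s (d / 2)) (h1 : ∀ d, Z d ≤ Z (d + 1))
    (h2 : ∀ d j, ∀ z ∈ Z d, c j • z ∈ Z (d + 2)) :
    ∃ d0, ∀ d, d0 ≤ d → ∀ W : Submodule K E, Z (d + 1) ≤ W → (∀ j, ∀ z ∈ Z d, c j • z ∈ W) →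
      Z (d + 2) ≤ W := by
  let φ : MvPolynomial (Fin (n + 1)) K →ₐ[K] F[X] :=
    MvPolynomial.aeval (Fin.cons (Polynomial.monomial 1 1) fun j => Polynomial.monomial 2 (c j) :
      Fin (n + 1) → F[X])
  let _ : Module (MvPolynomial (Fin (n + 1)) K) (PolynomialModule F E) :=
    Module.compHom _ (φ : MvPolynomial (Fin (n + 1)) K →+* F[X])
  have hsm : ∀ (p : MvPolynomial (Fin (n + 1)) K) (x : PolynomialModule F E),
      p • x = φ p • x := fun _ _ => rfl
  have hC : ∀ (a : K) (x : PolynomialModule F E),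
      (MvPolynomial.C a : MvPolynomial (Fin (n + 1)) K) • x =
        Polynomial.monomial 0 (algebraMap K F a) • x := by
    intro a x
    rw [hsm, MvPolynomial.algHom_C, Polynomial.algebraMap_apply, Polynomial.monomial_zero_left]
  have hX0 : ∀ x : PolynomialModule F E,
      (MvPolynomial.X 0 : MvPolynomial (Fin (n + 1)) K) • x = Polynomial.monomial 1 (1 : F) • x := by
    intro x
    rw [hsm]
    simp [φ]
  have hXs : ∀ (j : Fin n) (x : PolynomialModule F E),
      (MvPolynomial.X j.succ : MvPolynomial (Fin (n + 1)) K) • x =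
        Polynomial.monomial 2 (c j) • x := by
    intro j x
    rw [hsm]
    simp [φ]
  have mk : ∀ V : ℕ → Submodule K E, (∀ d, ∀ x ∈ V d ⊓ Z d, x ∈ V (d + 1)) →
      (∀ d j, ∀ x ∈ V d ⊓ Z d, c j • x ∈ V (d + 2)) →
      ∃ G : Submodule (MvPolynomial (Fin (n + 1)) K) (PolynomialModule F E),
        ∀ x, x ∈ G ↔ ∀ d, x.coeff d ∈ V d ⊓ Z d := by
    intro V v1 v2
    refine ⟨{ carrier := {x | ∀ d, x.coeff d ∈ V d ⊓ Z d}
              add_mem' := fun ha hb d => add_mem (ha d) (hb d)
              zero_mem' := fun d => zero_mem _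
              smul_mem' := ?_ }, fun _ => Iff.rfl⟩
    intro p
    induction p using MvPolynomial.induction_on with
    | C a =>
      intro x hx d
      rw [hC, PolynomialModule.monomial_smul_apply, if_pos (Nat.zero_le d), algebraMap_smul]
      exact Submodule.smul_mem _ a (hx d)
    | add p q hp hq =>
      intro x hx d
      rw [add_smul]
      exact add_mem (hp hx d) (hq hx d)
    | mul_X p i hp =>
      intro x hx
      rw [mul_smul]
      refine hp fun d => ?_
      refine Fin.cases ?_ (fun j => ?_) i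
      · rw [hX0, PolynomialModule.monomial_smul_apply]
        split_ifs with h
        · obtain ⟨d, rfl⟩ := Nat.exists_eq_add_of_le' h
          rw [one_smul, Nat.add_sub_cancel]
          exact ⟨v1 d _ (hx d), h1 d (hx d).2⟩
        · exact zero_mem _
      · rw [hXs, PolynomialModule.monomial_smul_apply]
        split_ifs with h
        · obtain ⟨d, rfl⟩ := Nat.exists_eq_add_of_le' h
          rw [Nat.add_sub_cancel]
          exact ⟨v2 d j _ (hx d), h2 d j _ (hx d).2⟩
        · exact zero_mem _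
  obtain ⟨G, hG⟩ := mk (fun _ => ⊤) (fun _ _ _ => trivial) (fun _ _ _ _ => trivial)
  let G0 : Submodule (MvPolynomial (Fin (n + 1)) K) (PolynomialModule F E) :=
    Submodule.span _ (PolynomialModule.single F 0 '' s)
  have g1 : ∀ k, ∀ z ∈ Zf K c k, ∀ x ∈ s, PolynomialModule.single F (2 * k) (z • x) ∈ G0 := by
    intro k
    induction k with
    | zero =>
      intro z hz x hx
      obtain ⟨a, rfl⟩ := Zf_zero hz
      have := G0.smul_mem (MvPolynomial.C a) (Submodule.subset_span ⟨x, hx, rfl⟩)
      rw [hC, PolynomialModule.monomial_smul_single] at this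
      simpa [Algebra.smul_def] using this
    | succ k ih =>
      intro z hz x hx
      refine Zf_succ hz (fun z => PolynomialModule.single F (2 * (k + 1)) (z • x) ∈ G0)
        (by simp) (fun a b ha hb => ?_) (fun y hy => ?_) fun j y hy => ?_
      · rw [add_smul, PolynomialModule.single_add]
        exact add_mem ha hb
      · have := G0.smul_mem (MvPolynomial.X 0) (G0.smul_mem (MvPolynomial.X 0) (ih y hy x hx))
        rw [hX0, hX0, PolynomialModule.monomial_smul_single,
          PolynomialModule.monomial_smul_single, one_smul, one_smul] at this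
        rwa [show 2 * (k + 1) = 1 + (1 + 2 * k) by omega]
      · have := G0.smul_mem (MvPolynomial.X j.succ) (ih y hy x hx)
        rw [hXs, PolynomialModule.monomial_smul_single, ← mul_smul] at this
        rwa [show 2 * (k + 1) = 2 + 2 * k by omega]
  have g2 : ∀ d, ∀ y ∈ Yf K c s (d / 2), PolynomialModule.single F d y ∈ G0 := by
    intro d y hy
    induction hy using Submodule.span_induction with
    | mem y hy =>
      obtain ⟨z, hz, x, hx, rfl⟩ := hy
      rcases Nat.even_or_odd' d with ⟨k, rfl | rfl⟩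
      · exact g1 k z (by simpa using hz) x hx
      · have := G0.smul_mem (MvPolynomial.X 0)
          (g1 k z (by rwa [show (2 * k + 1) / 2 = k by omega] at hz) x hx)
        rwa [hX0, PolynomialModule.monomial_smul_single, one_smul, add_comm 1 (2 * k)] at this
    | zero => simp
    | add x y _ _ hx hy =>
      rw [PolynomialModule.single_add]
      exact add_mem hx hy
    | smul a x _ hx =>
      have := G0.smul_mem (MvPolynomial.C a) hx
      rwa [hC, PolynomialModule.monomial_smul_single, zero_add, algebraMap_smul] at this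
  have g3 : G ≤ G0 := by
    intro x hx
    have e : x = ∑ d ∈ x.coeff.support, PolynomialModule.single F d (x.coeff d) := by
      apply PolynomialModule.coeff_injective
      rw [PolynomialModule.coeff_sum]
      exact (Finsupp.sum_single x.coeff).symm
    rw [e]
    exact Submodule.sum_mem _ fun d _ => g2 d _ (h0 d ((hG x).1 hx d).2)
  have g4 : G.FG := by
    have : IsNoetherian (MvPolynomial (Fin (n + 1)) K) G0 :=
      isNoetherian_of_fg_of_noetherian _ (Submodule.fg_span (hs.image _))
    exact isNoetherian_submodule.1 this G g3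
  obtain ⟨t, ht⟩ := g4
  refine ⟨t.sup fun x => x.coeff.support.sup id, fun d hd W w1 w2 z hz => ?_⟩
  obtain ⟨G', hG'⟩ := mk (fun k => if k = d + 2 then W else ⊤) (fun k x hx => by
      split_ifs with h
      · exact w1 (by rw [show d + 1 = k by omega]; exact hx.2)
      · trivial) (fun k j x hx => by
      split_ifs with h
      · exact w2 j x (by rw [show d = k by omega]; exact hx.2)
      · trivial)
  have g5 : G ≤ G' := by
    rw [← ht, Submodule.span_le]
    intro x hx
    refine (hG' x).2 fun k => ⟨?_, ((hG x).1 (ht ▸ Submodule.subset_span hx) k).2⟩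
    split_ifs with h
    · have : x.coeff k = 0 := by
        by_contra h'
        have h3 : k ≤ x.coeff.support.sup id :=
          Finset.le_sup (f := id) (Finsupp.mem_support_iff.2 h')
        have h4 : x.coeff.support.sup id ≤ t.sup fun x => x.coeff.support.sup id :=
          Finset.le_sup (f := fun x : PolynomialModule F E => x.coeff.support.sup id) hx
        omega
      rw [this]
      exact zero_mem _
    · trivial
  have g6 : PolynomialModule.single F (d + 2) z ∈ G := (hG _).2 fun k => ⟨trivial, by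
    rw [PolynomialModule.coeff_single, Finsupp.single_apply]
    split_ifs with h
    · exact h ▸ hz
    · exact zero_mem _⟩
  have g7 := ((hG' _).1 (g5 g6) (d + 2)).1
  simpa using g7

end

end Pool.Agent.Lib.MP_e9c0f3_ag.CL
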