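import Pool.Agent.Lib.MP_e9c0f3_ag.Reg
import Pool.Agent.Lib.MP_e9c0f3_ag.CL.A

/-! Graded pieces of a complete intersection of quadrics. -/

open MvPolynomial Module

namespace Pool.Agent.Lib.MP_e9c0f3_ag.CL

variable {K : Type} [Field K] {n : ℕ}

theorem rank_add {V W : Type} [AddCommGroup V] [Module K V] [AddCommGroup W] [Module K W]
    (f : V →ₗ[K] W) (S : Submodule K V) [Module.Finite K S] :
    finrank K (S.map f) + finrank K (S ⊓ LinearMap.ker f : Submodule K V) = finrank K S := by
  rw [← LinearMap.finrank_range_add_finrank_ker (f.domRestrict S), LinearMap.range_domRestrict,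
    LinearMap.ker_domRestrict, ← Submodule.map_comap_subtype, Submodule.finrank_map_subtype_eq]

theorem rank_inj {V W : Type} [AddCommGroup V] [Module K V] [AddCommGroup W] [Module K W]
    {f : V →ₗ[K] W} (hf : Function.Injective f) (S : Submodule K V) :
    finrank K (S.map f) = finrank K S :=
  (LinearEquiv.finrank_eq (Submodule.equivMapOfInjective f hf S)).symm

theorem hc_mul {t : Pol n K} {e : ℕ} (ht : t.IsHomogeneous e) (m : ℕ) (p : Pol n K) :
    homogeneousComponent m (t * p) =
      if e ≤ m then t * homogeneousComponent (m - e) p else 0 := by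
  induction p using MvPolynomial.induction_on' with
  | monomial u c =>
    have h1 : (monomial u c : Pol n K).IsHomogeneous u.degree := isHomogeneous_monomial c rfl
    rw [homogeneousComponent_of_mem (ht.mul h1), homogeneousComponent_of_mem h1]
    split_ifs with h2 h3 h4 h5 h6
    · rfl
    · omega
    · omega
    · omega
    · simp
    · rfl
  | add p q hp hq =>
    rw [mul_add, map_add, hp, hq, map_add]
    split_ifs <;> simp [mul_add]

theorem hc_span {s : Set (Pol n K)} (hs : ∀ p ∈ s, ∃ e, p.IsHomogeneous e) {q : Pol n K}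
    (hq : q ∈ Ideal.span s) (m : ℕ) : homogeneousComponent m q ∈ Ideal.span s := by
  let := MvPolynomial.gradedAlgebra (σ := Fin n) (R := K)
  have hI := Ideal.homogeneous_span (homogeneousSubmodule (Fin n) K) s hs
  exact decomposition.decompose'_apply q m ▸ hI m hq

/-- The degree `t` part of the quotient by `J`. -/
noncomputable def pc (J : Ideal (Pol n K)) (t : ℕ) : Submodule K (Pol n K ⧸ J) :=
  (homogeneousSubmodule (Fin n) K t).map (Ideal.Quotient.mkₐ K J).toLinearMap

/-- The degree `t - 2` part of the quotient by `J`. -/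
noncomputable def pz (J : Ideal (Pol n K)) (t : ℕ) : Submodule K (Pol n K ⧸ J) :=
  if 2 ≤ t then pc J (t - 2) else ⊥

instance fin_pc (J : Ideal (Pol n K)) (t : ℕ) : Module.Finite K (pc J t) := by
  unfold pc
  infer_instance

instance fin_pz (J : Ideal (Pol n K)) (t : ℕ) : Module.Finite K (pz J t) := by
  by_cases h : 2 ≤ t
  · rw [pz, if_pos h]
    infer_instance
  · rw [pz, if_neg h]
    infer_instance

theorem pz_add (J : Ideal (Pol n K)) (t : ℕ) : pz J (t + 2) = pc J t := by simp [pz]

theorem pz_one (J : Ideal (Pol n K)) : pz J 1 = ⊥ := by simp [pz]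

theorem pc_mul_X {J : Ideal (Pol n K)} {t : ℕ} {x : Pol n K ⧸ J} (hx : x ∈ pc J t) (a : Fin n) :
    x * Ideal.Quotient.mk J (X a) ∈ pc J (t + 1) := by
  obtain ⟨p, hp, rfl⟩ := hx
  exact ⟨p * X a, IsHomogeneous.mul hp (isHomogeneous_X K a), map_mul (Ideal.Quotient.mk J) _ _⟩

theorem pc_map {J' J : Ideal (Pol n K)} (h : J' ≤ J) (t : ℕ) :
    (pc J' t).map (Ideal.Quotient.factorₐ K h).toLinearMap = pc J t := by
  rw [pc, pc, ← Submodule.map_comp]
  rfl

theorem pz_map {J' J : Ideal (Pol n K)} (h : J' ≤ J) (t : ℕ) :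
    (pz J' t).map (Ideal.Quotient.factorₐ K h).toLinearMap = pz J t := by
  unfold pz
  split_ifs
  · exact pc_map h _
  · exact Submodule.map_bot _

variable {f : Fin n → Pol n K}

/-- The ideal of a subfamily. -/
noncomputable abbrev JJ (f : Fin n → Pol n K) (T : Finset (Fin n)) : Ideal (Pol n K) :=
  Ideal.span (f '' T)

theorem JJ_le (T : Finset (Fin n)) (j : Fin n) : JJ f T ≤ JJ f (insert j T) :=
  Ideal.span_mono (Set.image_mono (by simp))

theorem pc_ker (hf : ∀ j, (f j).IsHomogeneous 2) (T : Finset (Fin n)) (j : Fin n) (t : ℕ) :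
    pc (JJ f T) t ⊓ LinearMap.ker (Ideal.Quotient.factorₐ K (JJ_le T j)).toLinearMap =
      (pz (JJ f T) t).map (LinearMap.mulLeft K (Ideal.Quotient.mk (JJ f T) (f j))) := by
  refine le_antisymm ?_ ?_
  · rintro _ ⟨⟨p, hp, rfl⟩, h0⟩
    have h1 : p ∈ JJ f (insert j T) := Ideal.Quotient.eq_zero_iff_mem.1 h0
    rw [JJ, Finset.coe_insert, Set.image_insert_eq, Ideal.mem_span_insert] at h1
    obtain ⟨a, b, hb, e⟩ := h1
    have h2 := congrArg (homogeneousComponent t) e
    rw [homogeneousComponent_eq_self hp, map_add, mul_comm, hc_mul (hf j)] at h2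
    have h3 : Ideal.Quotient.mk (JJ f T) (homogeneousComponent t b) = 0 :=
      Ideal.Quotient.eq_zero_iff_mem.2 (hc_span (by rintro _ ⟨i, -, rfl⟩; exact ⟨2, hf i⟩) hb t)
    unfold pz
    split_ifs at h2 ⊢ with h
    · refine ⟨_, ⟨_, homogeneousComponent_mem (t - 2) a, rfl⟩, ?_⟩
      change _ = Ideal.Quotient.mk (JJ f T) p
      rw [h2, map_add, h3, add_zero, map_mul]
      rfl
    · refine ⟨0, zero_mem _, ?_⟩
      change _ = Ideal.Quotient.mk (JJ f T) p
      rw [h2, map_add, h3, map_zero, map_zero, add_zero]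
  · rintro _ ⟨y, hy, rfl⟩
    unfold pz at hy
    split_ifs at hy with h
    · obtain ⟨p, hp, rfl⟩ := hy
      refine ⟨⟨f j * p, ?_, map_mul (Ideal.Quotient.mk (JJ f T)) _ _⟩, ?_⟩
      · have := (hf j).mul hp
        rwa [show 2 + (t - 2) = t by omega] at this
      · exact (Ideal.Quotient.eq_zero_iff_mem (a := f j * p)).2
          (Ideal.mul_mem_right _ _ (Ideal.subset_span ⟨j, by simp, rfl⟩))
    · rw [(Submodule.mem_bot K).1 hy, map_zero]
      exact zero_mem _

theorem reg_inj' (hr : RegAll f) {T : Finset (Fin n)} {j : Fin n} (hj : j ∉ T) :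
    Function.Injective (LinearMap.mulLeft K (Ideal.Quotient.mk (JJ f T) (f j))) := by
  rw [injective_iff_map_eq_zero]
  intro y hy
  obtain ⟨p, rfl⟩ := Ideal.Quotient.mk_surjective y
  exact Ideal.Quotient.eq_zero_iff_mem.2 (hr T j hj p
    ((Ideal.Quotient.eq_zero_iff_mem (a := f j * p)).1 hy))

theorem finrank_pc_step (hf : ∀ j, (f j).IsHomogeneous 2) (hr : RegAll f) {T : Finset (Fin n)}
    {j : Fin n} (hj : j ∉ T) (t : ℕ) :
    finrank K (pc (JJ f (insert j T)) t) + finrank K (pz (JJ f T) t) =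
      finrank K (pc (JJ f T) t) := by
  rw [← rank_add (Ideal.Quotient.factorₐ K (JJ_le T j)).toLinearMap (pc (JJ f T) t), pc_map,
    pc_ker hf, rank_inj (reg_inj' hr hj)]

open PowerSeries in
theorem finrank_pc (hf : ∀ j, (f j).IsHomogeneous 2) (hr : RegAll f) (t : ℕ) :
    finrank K (pc (JJ f Finset.univ) t) = n.choose t := by
  have h1 : ∀ T : Finset (Fin n), (PowerSeries.mk fun t => (finrank K (pc (JJ f T) t) : ℤ)) =
      (1 - PowerSeries.X ^ 2) ^ T.card *
        PowerSeries.mk fun t => (finrank K (pc (JJ f ∅) t) : ℤ) := by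
    intro T
    induction T using Finset.induction_on with
    | empty => simp
    | insert j T hj ih =>
      rw [Finset.card_insert_of_notMem hj, pow_succ', mul_assoc, ← ih]
      ext t
      rw [sub_mul, one_mul, map_sub, coeff_X_pow_mul', coeff_mk, coeff_mk,
        ← finrank_pc_step hf hr hj t, pz]
      by_cases h : 2 ≤ t
      · rw [if_pos h, if_pos h]
        simp
      · rw [if_neg h, if_neg h]
        simp
  have h2 : ∀ t, finrank K (pc (JJ f ∅) t) = (n + t - 1).choose t := by
    intro t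
    rw [pc, rank_inj, finrank_hom']
    rw [injective_iff_map_eq_zero]
    intro p hp
    have := Ideal.Quotient.eq_zero_iff_mem.1 hp
    simpa [JJ] using this
  have h3 : (PowerSeries.mk fun t => (finrank K (pc (JJ f ∅) t) : ℤ)) *
      (1 - PowerSeries.X) ^ n = 1 := by
    simp only [h2]
    rcases n with _ | m
    · ext t
      rw [pow_zero, mul_one, coeff_mk, PowerSeries.coeff_one]
      rcases t with _ | t
      · simp
      · simp
    · have := mk_one_pow_eq_mk_choose_add ℤ m
      have e : (PowerSeries.mk fun t => (((m + 1 + t - 1).choose t : ℕ) : ℤ)) =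
          (PowerSeries.mk 1 : ℤ⟦X⟧) ^ (m + 1) := by
        rw [this]
        ext t
        rw [coeff_mk, coeff_mk, show m + 1 + t - 1 = m + t by omega, Nat.choose_symm_add]
      rw [e, ← mul_pow, mk_one_mul_one_sub_eq_one, one_pow]
  have h4 := h1 Finset.univ
  rw [Finset.card_univ, Fintype.card_fin,
    show (1 - PowerSeries.X ^ 2 : ℤ⟦X⟧) = (1 + PowerSeries.X) * (1 - PowerSeries.X) by ring,
    mul_pow, mul_assoc, mul_comm ((1 - PowerSeries.X) ^ n), h3, mul_one] at h4
  have h5 := congrArg (PowerSeries.coeff t) h4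
  rw [coeff_mk] at h5
  have h6 : ((1 + PowerSeries.X) ^ n : ℤ⟦X⟧) = ((1 + Polynomial.X) ^ n : Polynomial ℤ) := by
    simp
  rw [h6, Polynomial.coeff_coe, Polynomial.coeff_one_add_X_pow] at h5
  exact_mod_cast h5

end Pool.Agent.Lib.MP_e9c0f3_ag.CL
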