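import Pool.Agent.Lib.MP_e9c0f3_ag.CL.B

/-! Words in Clifford generators and tensor products of subspaces. -/

open MvPolynomial Module TensorProduct

namespace Pool.Agent.Lib.MP_e9c0f3_ag.CL

variable {K : Type} [Field K] {n : ℕ} {F : Type} [Field F] [Algebra K F] {c : Fin n → F}

section

variable {E : Type} [AddCommGroup E] [Module F E] [Module K E] [IsScalarTower K F E] {s : Set E}

theorem Yf_smul {k l : ℕ} {z : F} (hz : z ∈ Zf K c k) {y : E} (hy : y ∈ Yf K c s l) :
    z • y ∈ Yf K c s (k + l) := by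
  induction hy using Submodule.span_induction with
  | mem y hy =>
    obtain ⟨z', hz', x, hx, rfl⟩ := hy
    exact Submodule.subset_span ⟨z * z', Zf_mul hz hz', x, hx, (mul_smul _ _ _).symm⟩
  | zero => simp
  | add x y _ _ hx hy =>
    rw [smul_add]
    exact add_mem hx hy
  | smul a x _ hx =>
    rw [smul_comm]
    exact Submodule.smul_mem _ a hx

omit [IsScalarTower K F E] in
theorem Yf_mono {k l : ℕ} (h : k ≤ l) : Yf K c s k ≤ Yf K c s l :=
  Submodule.span_mono fun _ ⟨z, hz, x, hx, e⟩ => ⟨z, Zf_mono h hz, x, hx, e⟩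

omit [IsScalarTower K F E] in
theorem Yf_self {x : E} (hx : x ∈ s) (k : ℕ) : x ∈ Yf K c s k :=
  Yf_mono (Nat.zero_le k) (Submodule.subset_span ⟨1, Zf_one, x, hx, (one_smul _ _).symm⟩)

/-- Multiples of a vector. -/
def sm (K F : Type) [Field K] [Field F] [Algebra K F] [Module F E] [Module K E]
    [IsScalarTower K F E] (x : E) : F →ₗ[K] E :=
  (LinearMap.toSpanSingleton F E x).restrictScalars K

theorem Yf_le {ι : Type} [Fintype ι] (e : ι → E) (k : ℕ) :
    ∃ φ : (ι → Zf K c k) →ₗ[K] E, Yf K c (Set.range e) k ≤ LinearMap.range φ := by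
  classical
  refine ⟨∑ i, (sm K F (e i) ∘ₗ (Zf K c k).subtype) ∘ₗ LinearMap.proj i, Submodule.span_le.2 ?_⟩
  rintro _ ⟨z, hz, _, ⟨i, rfl⟩, rfl⟩
  refine ⟨Pi.single i ⟨z, hz⟩, ?_⟩
  rw [LinearMap.sum_apply, Finset.sum_eq_single i]
  · simp [sm]
  · intro j _ hj
    simp [hj]
  · simp

end

variable {D : Type} [Ring D] [Algebra K D]

section

variable {A A' : Type} [AddCommGroup A] [Module K A] [AddCommGroup A'] [Module K A']

/-- The tensor product of two subspaces. -/
def TT (M : Submodule K D) (P : Submodule K A) : Submodule K (D ⊗[K] A) :=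
  LinearMap.range (TensorProduct.mapIncl M P)

theorem TT_mem {M : Submodule K D} {P : Submodule K A} {m : D} {p : A} (hm : m ∈ M) (hp : p ∈ P) :
    m ⊗ₜ[K] p ∈ TT M P := ⟨(⟨m, hm⟩ : M) ⊗ₜ (⟨p, hp⟩ : P), rfl⟩

theorem TT_ind {M : Submodule K D} {P : Submodule K A} {y : D ⊗[K] A} (hy : y ∈ TT M P)
    (Q : D ⊗[K] A → Prop) (h0 : Q 0) (h1 : ∀ m ∈ M, ∀ p ∈ P, Q (m ⊗ₜ p))
    (h2 : ∀ a b, Q a → Q b → Q (a + b)) : Q y := by
  obtain ⟨x, rfl⟩ := hy
  induction x using TensorProduct.induction_on with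
  | zero => simpa using h0
  | tmul m p => exact h1 m m.2 p p.2
  | add a b ha hb =>
    rw [map_add]
    exact h2 _ _ ha hb

theorem TT_mono {M M' : Submodule K D} {P P' : Submodule K A} (h : M ≤ M') (h' : P ≤ P') :
    TT M P ≤ TT M' P' := fun _ hy =>
  TT_ind hy (· ∈ TT M' P') (zero_mem _) (fun _ hm _ hp => TT_mem (h hm) (h' hp))
    fun _ _ => add_mem

instance fin_TT (M : Submodule K D) (P : Submodule K A) [Module.Finite K M] [Module.Finite K P] :
    Module.Finite K (TT M P) := by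
  unfold TT
  infer_instance

theorem finrank_TT (M : Submodule K D) (P : Submodule K A) :
    finrank K (TT M P) = finrank K M * finrank K P := by
  rw [TT, LinearMap.finrank_range_of_inj
    (Module.Flat.tensorProduct_mapIncl_injective_of_right M P), Module.finrank_tensorProduct]

theorem TT_map {M : Submodule K D} {P : Submodule K A} (q : A →ₗ[K] A') {y : D ⊗[K] A}
    (hy : y ∈ TT M P) : q.lTensor D y ∈ TT M (P.map q) :=
  TT_ind hy (fun y => q.lTensor D y ∈ TT M (P.map q)) (by simp)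
    (fun _ hm p hp => TT_mem hm ⟨p, hp, rfl⟩) fun a b ha hb => by
      rw [map_add]
      exact add_mem ha hb

theorem TT_lift {M : Submodule K D} {P : Submodule K A} (q : A →ₗ[K] A') {y : D ⊗[K] A'}
    (hy : y ∈ TT M (P.map q)) : ∃ x ∈ TT M P, q.lTensor D x = y := by
  refine TT_ind hy (fun y => ∃ x ∈ TT M P, q.lTensor D x = y) ⟨0, zero_mem _, map_zero _⟩ ?_ ?_
  · rintro m hm _ ⟨p, hp, rfl⟩
    exact ⟨m ⊗ₜ p, TT_mem hm hp, rfl⟩
  · rintro _ _ ⟨a, ha, rfl⟩ ⟨b, hb, rfl⟩
    exact ⟨a + b, add_mem ha hb, map_add _ _ _⟩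

theorem TT_ker {M : Submodule K D} {P : Submodule K A} (q : A →ₗ[K] A') {y : D ⊗[K] A}
    (hy : y ∈ TT M P) (h0 : q.lTensor D y = 0) : y ∈ TT M (P ⊓ LinearMap.ker q) := by
  obtain ⟨x, rfl⟩ := hy
  have e : (q.lTensor D) ∘ₗ TensorProduct.mapIncl M P =
      (M.subtype.rTensor A') ∘ₗ (q ∘ₗ P.subtype).lTensor M := by
    ext m p
    rfl
  have h1 : (q ∘ₗ P.subtype).lTensor M x = 0 := by
    apply Module.Flat.rTensor_preserves_injective_linearMap (M := A') M.subtype M.subtype_injective
    rw [map_zero, ← h0]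
    exact (LinearMap.congr_fun e x).symm
  obtain ⟨x', rfl⟩ := (Module.Flat.lTensor_exact M
    (LinearMap.exact_subtype_ker_map (q ∘ₗ P.subtype)) x).1 h1
  clear h0 h1
  induction x' using TensorProduct.induction_on with
  | zero => simp
  | tmul m p => exact TT_mem m.2 ⟨p.1.2, p.2⟩
  | add a b ha hb =>
    rw [map_add, map_add]
    exact add_mem ha hb

end

variable [Algebra F D] [IsScalarTower K F D]

/-- The coefficients of the generic quadric of the system. -/
def bt (κ : Fin n → Fin n → Fin n → K) (c : Fin n → F) (a b : Fin n) : F := ∑ l, κ l a b • c l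

/-- The Clifford relations. -/
structure Rel (κ : Fin n → Fin n → Fin n → K) (c : Fin n → F) (g : Fin n → D) : Prop where
  sq : ∀ a, g a * g a = algebraMap F D (bt κ c a a)
  anti : ∀ a b, g a * g b + g b * g a = algebraMap F D (bt κ c a b + bt κ c b a)

variable {κ : Fin n → Fin n → Fin n → K} {g : Fin n → D}

omit [Algebra K D] [IsScalarTower K F D] in
theorem Rel.sum (h : Rel κ c g) {W : Type} [AddCommGroup W] (s : Fin n → Fin n → D →+ W)
    (hs : ∀ a b, s a b = s b a) :
    ∑ a, ∑ b, s a b (g a * g b) = ∑ a, ∑ b, s a b (algebraMap F D (bt κ c a b)) := by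
  rw [← sub_eq_zero, ← Finset.sum_sub_distrib]
  simp only [← Finset.sum_sub_distrib, ← map_sub]
  rw [← Finset.sum_product']
  refine Finset.sum_involution (fun x _ => x.swap) (fun x _ => ?_) (fun x _ hx e => hx ?_)
    (fun _ _ => by simp) fun _ _ => rfl
  · rw [Prod.fst_swap, Prod.snd_swap, hs x.2 x.1, ← map_add, sub_add_sub_comm, h.anti, map_add,
      sub_self, map_zero]
  · have e1 : x.2 = x.1 := congrArg Prod.fst e
    rw [e1, h.sq, sub_self, map_zero]

/-- Words. -/
def wd (g : Fin n → D) (l : List (Fin n)) : D := (l.map g).prod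

theorem wd_cons (a : Fin n) (l : List (Fin n)) : wd g (a :: l) = g a * wd g l := by simp [wd]

theorem wd_append (l l' : List (Fin n)) : wd g (l ++ l') = wd g l * wd g l' := by simp [wd]

/-- The filtration by weight, shifted by `e`. -/
def Ug (K : Type) [Field K] [Algebra K F] [Algebra K D] (c : Fin n → F) (g : Fin n → D)
    (e d : ℕ) : Submodule K D :=
  Submodule.span K {y | ∃ k l, ∃ z ∈ Zf K c k, 2 * k + List.length l + e ≤ d ∧ y = z • wd g l}

omit [IsScalarTower K F D] in
theorem Ug_le {e d e' d' : ℕ} (h : ∀ x, x + e ≤ d → x + e' ≤ d') :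
    Ug K c g e d ≤ Ug K c g e' d' :=
  Submodule.span_mono fun _ ⟨k, l, z, hz, h1, h2⟩ => ⟨k, l, z, hz, h _ h1, h2⟩

omit [IsScalarTower K F D] in
theorem Ug_mul {e d e' d' : ℕ} {x y : D} (hx : x ∈ Ug K c g e d) (hy : y ∈ Ug K c g e' d') :
    x * y ∈ Ug K c g (e + e') (d + d') := by
  induction hx using Submodule.span_induction with
  | mem x hx =>
    obtain ⟨k, l, z, hz, h1, rfl⟩ := hx
    induction hy using Submodule.span_induction with
    | mem y hy =>
      obtain ⟨k', l', z', hz', h2, rfl⟩ := hy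
      refine Submodule.subset_span ⟨k + k', l ++ l', z * z', Zf_mul hz hz', ?_, ?_⟩
      · rw [List.length_append]
        omega
      · rw [wd_append, smul_mul_smul_comm]
    | zero => simp
    | add x y _ _ hx hy =>
      rw [mul_add]
      exact add_mem hx hy
    | smul a x _ hx =>
      rw [mul_smul_comm]
      exact Submodule.smul_mem _ a hx
  | zero => simp
  | add x y _ _ hx hy =>
    rw [add_mul]
    exact add_mem hx hy
  | smul a x _ hx =>
    rw [smul_mul_assoc]
    exact Submodule.smul_mem _ a hx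

omit [IsScalarTower K F D] in
theorem Ug_wd (l : List (Fin n)) : wd g l ∈ Ug K c g 0 l.length :=
  Submodule.subset_span ⟨0, l, 1, Zf_one, by omega, (one_smul _ _).symm⟩

theorem Ug_smul {e d k : ℕ} {z : F} (hz : z ∈ Zf K c k) {x : D} (hx : x ∈ Ug K c g e d) :
    z • x ∈ Ug K c g e (d + 2 * k) := by
  have h1 : z • (1 : D) ∈ Ug K c g 0 (2 * k) :=
    Submodule.subset_span ⟨k, [], z, hz, by simp, rfl⟩
  simpa using Ug_mul hx h1

theorem Ug_g {e d : ℕ} {x : D} (hx : x ∈ Ug K c g e d) (a : Fin n) :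
    x * g a ∈ Ug K c g e (d + 1) := by
  simpa [wd] using Ug_mul hx (Ug_wd (c := c) (g := g) [a])

theorem bt_mem (a b : Fin n) : bt κ c a b ∈ Zf K c 1 :=
  Submodule.sum_mem _ fun l _ => Submodule.smul_mem _ _ (Zf_c l)

/-- Shorter words. -/
def Lm (K : Type) [Field K] [Algebra K F] [Algebra K D] (c : Fin n → F) (g : Fin n → D) (m : ℕ) :
    Submodule K D :=
  Submodule.span K {y | ∃ z ∈ Zf K c 1, ∃ v, List.length v + 2 = m ∧ y = z • wd g v}

omit [IsScalarTower K F D] in
theorem Rel.perm (h : Rel κ c g) {l l' : List (Fin n)} (hp : l.Perm l') :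
    wd g l ∈ Submodule.span K {wd g l'} ⊔ Lm K c g l.length := by
  induction hp with
  | nil => exact Submodule.mem_sup_left (Submodule.mem_span_singleton_self _)
  | @cons a l l' _ ih =>
    have h1 : (Submodule.span K {wd g l'} ⊔ Lm K c g l.length).map (LinearMap.mulLeft K (g a)) ≤
        Submodule.span K {wd g (a :: l')} ⊔ Lm K c g (a :: l).length := by
      rw [Submodule.map_sup, Lm, Submodule.map_span, Submodule.map_span]
      refine sup_le_sup (Submodule.span_mono ?_) (Submodule.span_mono ?_)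
      · rintro _ ⟨_, rfl, rfl⟩
        exact (wd_cons a l').symm
      · rintro _ ⟨_, ⟨z, hz, v, hv, rfl⟩, rfl⟩
        exact ⟨z, hz, a :: v, by simp [← hv], by simp [wd_cons]⟩
    exact h1 ⟨_, ih, (wd_cons a l).symm⟩
  | swap a b l =>
    have e : wd g (b :: a :: l) =
        -wd g (a :: b :: l) + (bt κ c a b + bt κ c b a) • wd g l := by
      rw [Algebra.smul_def, ← h.anti, wd_cons, wd_cons, wd_cons, wd_cons]
      noncomm_ring
    rw [e]
    exact Submodule.add_mem_sup (neg_mem (Submodule.mem_span_singleton_self _))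
      (Submodule.subset_span ⟨_, add_mem (bt_mem a b) (bt_mem b a), l, rfl, rfl⟩)
  | trans h1 _ ih1 ih2 =>
    rw [← h1.length_eq] at ih2
    exact sup_le ((Submodule.span_singleton_le_iff_mem _ _).2 ih2) le_sup_right ih1

/-- The standard words. -/
noncomputable def sw (g : Fin n → D) (B : Finset (Fin n)) : D := wd g B.toList

theorem Rel.wd_mem (h : Rel κ c g) : ∀ (m : ℕ) (l : List (Fin n)), l.length = m →
    wd g l ∈ Yf K c (Set.range (sw g)) (m / 2) := by
  intro m
  induction m using Nat.strong_induction_on with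
  | _ m ih =>
    intro l hl
    have h1 : Lm K c g m ≤ Yf K c (Set.range (sw g)) (m / 2) := by
      refine Submodule.span_le.2 ?_
      rintro _ ⟨z, hz, v, hv, rfl⟩
      exact Yf_mono (by omega) (Yf_smul hz (ih _ (by omega) v rfl))
    by_cases hn : l.Nodup
    · refine sup_le ((Submodule.span_singleton_le_iff_mem _ _).2 ?_) h1
        (hl ▸ h.perm (List.toFinset_toList hn).symm)
      exact Yf_self (Set.mem_range_self (f := sw g) l.toFinset) _
    · rw [List.nodup_iff_sublist] at hn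
      push Not at hn
      obtain ⟨a, ha⟩ := hn
      obtain ⟨v, hv⟩ := ha.exists_perm_append
      refine sup_le ((Submodule.span_singleton_le_iff_mem _ _).2 (h1 ?_)) h1 (hl ▸ h.perm hv)
      refine Submodule.subset_span ⟨_, bt_mem (κ := κ) a a, v, ?_, ?_⟩
      · rw [← hl, hv.length_eq]
        simp
      · rw [Algebra.smul_def, ← h.sq, wd_append]
        simp [wd]

theorem Rel.Ug_le_Yf (h : Rel κ c g) (d : ℕ) :
    Ug K c g 0 d ≤ Yf K c (Set.range (sw g)) (d / 2) := by
  refine Submodule.span_le.2 ?_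
  rintro _ ⟨k, l, z, hz, h1, rfl⟩
  exact Yf_mono (by omega) (Yf_smul hz (h.wd_mem _ l rfl))

theorem Rel.fin_Ug (h : Rel κ c g) (d : ℕ) : Module.Finite K (Ug K c g 0 d) := by
  obtain ⟨φ, hφ⟩ := Yf_le (K := K) (c := c) (sw g) (d / 2)
  exact Submodule.finiteDimensional_of_le (le_trans (h.Ug_le_Yf d) hφ)

theorem Rel.finrank_Ug (h : Rel κ c g)
    (hc : Function.Injective (aeval c : MvPolynomial (Fin n) K →ₐ[K] F)) (d : ℕ) :
    finrank K (Ug K c g 0 d) ≤ 2 ^ n * (d / 2 + n).choose n := by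
  obtain ⟨φ, hφ⟩ := Yf_le (K := K) (c := c) (sw g) (d / 2)
  refine le_trans (Submodule.finrank_mono (le_trans (h.Ug_le_Yf d) hφ))
    (le_trans φ.finrank_range_le ?_)
  rw [Module.finrank_pi_fintype, Finset.sum_const, finrank_Zf hc, Finset.card_univ,
    Fintype.card_finset, Fintype.card_fin, smul_eq_mul]

end Pool.Agent.Lib.MP_e9c0f3_ag.CL
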