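import Pool.Agent.Lib.MP_e9c0f3_ag.CL.C

/-! The generic Clifford algebra of a system of quadrics without common zero is a domain. -/

open MvPolynomial Module TensorProduct Filter

namespace Pool.Agent.Lib.MP_e9c0f3_ag.CL

variable {K : Type} [Field K] {n : ℕ} {F : Type} [Field F] [Algebra K F] {c : Fin n → F}
  {D : Type} [Ring D] [Algebra K D] [Algebra F D] [IsScalarTower K F D]
  {κ : Fin n → Fin n → Fin n → K} {g : Fin n → D} {f : Fin n → Pol n K}

section

variable {A A' : Type} [AddCommGroup A] [Module K A] [AddCommGroup A'] [Module K A']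

/-- Multiplication by the universal linear form. -/
noncomputable def dl (g : Fin n → D) (ξ : Fin n → A →ₗ[K] A) : D ⊗[K] A →ₗ[K] D ⊗[K] A :=
  ∑ a, TensorProduct.map (LinearMap.mulRight K (g a)) (ξ a)

omit [Algebra F D] [IsScalarTower K F D] in
theorem dl_tmul (ξ : Fin n → A →ₗ[K] A) (m : D) (p : A) :
    dl g ξ (m ⊗ₜ p) = ∑ a, (m * g a) ⊗ₜ[K] ξ a p := by
  simp [dl]

theorem dl_smul (ξ : Fin n → A →ₗ[K] A) (φ : F) (z : D ⊗[K] A) :
    dl g ξ (φ • z) = φ • dl g ξ z := by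
  induction z using TensorProduct.induction_on with
  | zero => simp
  | tmul m p => simp only [smul_tmul', dl_tmul, Finset.smul_sum, smul_mul_assoc]
  | add a b ha hb => rw [smul_add, map_add, map_add, ha, hb, smul_add]

theorem lT_smul (q : A →ₗ[K] A') (φ : F) (z : D ⊗[K] A) :
    q.lTensor D (φ • z) = φ • q.lTensor D z := by
  induction z using TensorProduct.induction_on with
  | zero => simp
  | tmul m p => simp only [smul_tmul', LinearMap.lTensor_tmul]
  | add a b ha hb => rw [smul_add, map_add, map_add, ha, hb, smul_add]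

omit [Algebra F D] [IsScalarTower K F D] in
theorem lT_dl (q : A →ₗ[K] A') {ξ : Fin n → A →ₗ[K] A} {ξ' : Fin n → A' →ₗ[K] A'}
    (h : ∀ a p, q (ξ a p) = ξ' a (q p)) (z : D ⊗[K] A) :
    q.lTensor D (dl g ξ z) = dl g ξ' (q.lTensor D z) := by
  induction z using TensorProduct.induction_on with
  | zero => simp
  | tmul m p => simp only [dl_tmul, map_sum, LinearMap.lTensor_tmul, h]
  | add a b ha hb => rw [map_add, map_add, map_add, ha, hb, map_add]

theorem Rel.dl_dl (h : Rel κ c g) {ξ u : Fin n → A →ₗ[K] A}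
    (hξ : ∀ a b p, ξ a (ξ b p) = ξ b (ξ a p))
    (hu : ∀ l p, u l p = ∑ a, ∑ b, κ l a b • ξ b (ξ a p)) (z : D ⊗[K] A) :
    dl g ξ (dl g ξ z) = ∑ l, c l • (u l).lTensor D z := by
  induction z using TensorProduct.induction_on with
  | zero => simp
  | add a b ha hb => simp only [map_add, ha, hb, smul_add, Finset.sum_add_distrib]
  | tmul m p =>
    have h1 := h.sum (fun a b => (((TensorProduct.mk K D A).flip (ξ b (ξ a p))) ∘ₗ
      LinearMap.mulLeft K m).toAddMonoidHom) fun a b => by rw [hξ]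
    simp only [LinearMap.toAddMonoidHom_coe, LinearMap.comp_apply, LinearMap.flip_apply,
      TensorProduct.mk_apply, LinearMap.mulLeft_apply] at h1
    simp only [dl_tmul, map_sum, mul_assoc]
    rw [h1]
    have h2 : ∀ l a b, (m * algebraMap F D (κ l a b • c l)) ⊗ₜ[K] ξ b (ξ a p) =
        c l • m ⊗ₜ[K] (κ l a b • ξ b (ξ a p)) := by
      intro l a b
      rw [smul_tmul', ← smul_tmul, Algebra.algebraMap_eq_smul_one, mul_smul_comm, mul_one,
        smul_assoc]
    simp only [LinearMap.lTensor_tmul, hu, bt, map_sum, Finset.mul_sum, sum_tmul, tmul_sum,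
      Finset.smul_sum, h2]
    exact (Finset.sum_congr rfl fun a _ => Finset.sum_comm).trans Finset.sum_comm

end

/-- Multiplication by a polynomial in the quotient. -/
noncomputable def mq (J : Ideal (Pol n K)) (p : Pol n K) : (Pol n K ⧸ J) →ₗ[K] (Pol n K ⧸ J) :=
  LinearMap.mulLeft K (Ideal.Quotient.mk J p)

theorem mq_apply (J : Ideal (Pol n K)) (p : Pol n K) (y : Pol n K ⧸ J) :
    mq J p y = Ideal.Quotient.mk J p * y := rfl

theorem mq_comm (J : Ideal (Pol n K)) (p q : Pol n K) (y : Pol n K ⧸ J) :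
    mq J p (mq J q y) = mq J q (mq J p y) := mul_left_comm _ _ _

theorem mq_zero {J : Ideal (Pol n K)} {p : Pol n K} (h : p ∈ J) : mq J p = 0 := by
  ext y
  simp [mq_apply, Ideal.Quotient.eq_zero_iff_mem.2 h]

/-- The differential. -/
noncomputable def dq (g : Fin n → D) (J : Ideal (Pol n K)) :
    D ⊗[K] (Pol n K ⧸ J) →ₗ[K] D ⊗[K] (Pol n K ⧸ J) := dl g fun a => mq J (X a)

theorem Rel.dq_dq (h : Rel κ c g) (hκ : ∀ l, f l = ∑ a, ∑ b, κ l a b • (X a * X b))
    (J : Ideal (Pol n K)) (z : D ⊗[K] (Pol n K ⧸ J)) :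
    dq g J (dq g J z) = ∑ l, c l • (mq J (f l)).lTensor D z := by
  refine h.dl_dl (fun a b p => mq_comm _ _ _ _) (fun l p => ?_) z
  obtain ⟨p, rfl⟩ := Ideal.Quotient.mk_surjective p
  change Ideal.Quotient.mkₐ K J (f l * p) =
    ∑ a, ∑ b, κ l a b • Ideal.Quotient.mkₐ K J (X b * (X a * p))
  simp only [← map_smul, ← map_sum]
  congr 1
  rw [hκ l, Finset.sum_mul]
  refine Finset.sum_congr rfl fun a _ => ?_
  rw [Finset.sum_mul]
  refine Finset.sum_congr rfl fun b _ => ?_
  rw [smul_mul_assoc, mul_left_comm, mul_assoc]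

/-- A filtered right submodule. -/
structure Fam (c : Fin n → F) (g : Fin n → D) (M : ℕ → Submodule K D) : Prop where
  le : ∀ d, M d ≤ Ug K c g 0 d
  mono : ∀ d, M d ≤ M (d + 1)
  mul : ∀ d a, ∀ x ∈ M d, x * g a ∈ M (d + 1)
  smul : ∀ d j, ∀ x ∈ M d, c j • x ∈ M (d + 2)

variable {M : ℕ → Submodule K D}

omit [IsScalarTower K F D] in
theorem Fam.dq_mem (hM : Fam c g M) {J : Ideal (Pol n K)} {d t : ℕ} {z : D ⊗[K] (Pol n K ⧸ J)}
    (hz : z ∈ TT (M d) (pc J t)) : dq g J z ∈ TT (M (d + 1)) (pc J (t + 1)) := by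
  refine TT_ind hz (fun z => dq g J z ∈ TT (M (d + 1)) (pc J (t + 1))) (by simp)
    (fun m hm p hp => ?_) fun a b ha hb => ?_
  · rw [dq, dl_tmul]
    refine Submodule.sum_mem _ fun a _ => TT_mem (hM.mul d a m hm) ?_
    rw [mq_apply, mul_comm]
    exact pc_mul_X hp a
  · rw [map_add]
    exact add_mem ha hb

theorem Fam.smul_TT (hM : Fam c g M) {A : Type} [AddCommGroup A] [Module K A] {P : Submodule K A}
    {d : ℕ} (j : Fin n) {z : D ⊗[K] A} (hz : z ∈ TT (M d) P) : c j • z ∈ TT (M (d + 2)) P := by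
  refine TT_ind hz (fun z => c j • z ∈ TT (M (d + 2)) P) (by simp)
    (fun m hm p hp => ?_) fun a b ha hb => ?_
  · rw [smul_tmul']
    exact TT_mem (hM.smul d j m hm) hp
  · rw [smul_add]
    exact add_mem ha hb

theorem Rel.kill (h : Rel κ c g) (hκ : ∀ l, f l = ∑ a, ∑ b, κ l a b • (X a * X b))
    (hf : ∀ j, (f j).IsHomogeneous 2) (hr : RegAll f) (hM : Fam c g M) {T T' : Finset (Fin n)}
    {j : Fin n} (hj : j ∉ T) (hT : T' = insert j T) (hall : ∀ l, l ∈ T') {d t : ℕ}
    {z : D ⊗[K] (Pol n K ⧸ JJ f T')} (hz : z ∈ TT (M d) (pc (JJ f T') t))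
    (h0 : dq g (JJ f T') z = 0) :
    ∃ w ∈ TT (M (d + 1)) (pz (JJ f T') (t + 1)), dq g (JJ f T') w = c j • z := by
  subst hT
  let q := (Ideal.Quotient.factorₐ K (JJ_le (f := f) T j)).toLinearMap
  have hq : ∀ x, q.lTensor D (dq g (JJ f T) x) = dq g (JJ f (insert j T)) (q.lTensor D x) :=
    lT_dl q fun a p => map_mul (Ideal.Quotient.factorₐ K (JJ_le (f := f) T j)) _ _
  rw [← pc_map (JJ_le T j)] at hz
  obtain ⟨z', hz', rfl⟩ := TT_lift _ hz
  have h1 := TT_ker q (hM.dq_mem hz') ((hq z').trans h0)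
  rw [pc_ker hf] at h1
  obtain ⟨w, hw, e⟩ := TT_lift _ h1
  have h2 : dq g (JJ f T) (dq g (JJ f T) z') = c j • (mq (JJ f T) (f j)).lTensor D z' := by
    rw [h.dq_dq hκ, Finset.sum_eq_single j]
    · intro l _ hl
      have hl' : f l ∈ JJ f T :=
        Ideal.subset_span ⟨l, (Finset.mem_insert.1 (hall l)).resolve_left hl, rfl⟩
      rw [mq_zero hl', LinearMap.lTensor_zero, LinearMap.zero_apply, smul_zero]
    · simp
  have h3 : dq g (JJ f T) w = c j • z' := by
    have hi : Function.Injective ((mq (JJ f T) (f j)).lTensor D) :=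
      Module.Flat.lTensor_preserves_injective_linearMap (M := D) _ (reg_inj' hr hj)
    apply hi
    rw [lT_smul, ← h2, ← e]
    exact lT_dl _ (fun a p => mq_comm _ _ _ _) w
  refine ⟨q.lTensor D w, ?_, ?_⟩
  · rw [← pz_map (JJ_le T j)]
    exact TT_map _ hw
  · rw [← hq, h3, lT_smul]

theorem TT_le_Yf {A : Type} [AddCommGroup A] [Module K A] (P : Submodule K A) [Module.Finite K P]
    {s : Set D} (hs : s.Finite) : ∃ s' : Set (D ⊗[K] A), s'.Finite ∧
      ∀ k, TT (Yf K c s k) P ≤ Yf K c s' k := by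
  obtain ⟨r, hr⟩ : P.FG := Module.Finite.iff_fg.1 inferInstance
  refine ⟨Set.image2 (fun m p => m ⊗ₜ[K] p) s r, hs.image2 _ r.finite_toSet, fun k y hy => ?_⟩
  refine TT_ind hy (· ∈ _) (zero_mem _) (fun m hm p hp => ?_) fun _ _ => add_mem
  rw [← hr] at hp
  induction hp using Submodule.span_induction with
  | mem p hp =>
    induction hm using Submodule.span_induction with
    | mem m hm =>
      obtain ⟨z, hz, x, hx, rfl⟩ := hm
      exact Submodule.subset_span ⟨z, hz, x ⊗ₜ p, ⟨x, hx, p, hp, rfl⟩, (smul_tmul' _ _ _).symm⟩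
    | zero => simp
    | add x y _ _ hx hy =>
      rw [add_tmul]
      exact add_mem hx hy
    | smul a x _ hx =>
      rw [← smul_tmul']
      exact Submodule.smul_mem _ a hx
  | zero => simp
  | add x y _ _ hx hy =>
    rw [tmul_add]
    exact add_mem hx hy
  | smul a x _ hx =>
    rw [tmul_smul]
    exact Submodule.smul_mem _ a hx

/-- The leading coefficient of the Hilbert function of a filtered right module is an integer. -/
theorem Rel.euler (h : Rel κ c g) (hκ : ∀ l, f l = ∑ a, ∑ b, κ l a b • (X a * X b))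
    (hf : ∀ j, (f j).IsHomogeneous 2) (hr : RegAll f) (hM : Fam c g M) :
    ∃ ρ : ℤ, ∀ᶠ d in atTop, (fwdDiff 1)^[n] (fun x => (finrank K (M x) : ℤ)) d = ρ := by
  have hfin : ∀ d, Module.Finite K (M d) := fun d =>
    have := h.fin_Ug d
    Submodule.finiteDimensional_of_le (hM.le d)
  let J := JJ f Finset.univ
  let δ : D ⊗[K] (Pol n K ⧸ J) →ₗ[K] D ⊗[K] (Pol n K ⧸ J) := dq g J
  let Z : ℕ → ℕ → Submodule K (D ⊗[K] (Pol n K ⧸ J)) := fun t d =>
    TT (M d) (pc J t) ⊓ LinearMap.ker δ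
  let B : ℕ → ℕ → Submodule K (D ⊗[K] (Pol n K ⧸ J)) := fun t d =>
    (TT (M d) (pz J (t + 1))).map δ
  have hZf : ∀ t d, Module.Finite K (Z t d) := fun t d =>
    Submodule.finiteDimensional_of_le (inf_le_left : Z t d ≤ _)
  have hXX : ∀ w, δ (δ w) = 0 := by
    intro w
    rw [h.dq_dq hκ]
    refine Finset.sum_eq_zero fun l _ => ?_
    have hl : f l ∈ J := Ideal.subset_span ⟨l, by simp, rfl⟩
    rw [mq_zero hl, LinearMap.lTensor_zero, LinearMap.zero_apply, smul_zero]
  have hBZ : ∀ t d, B t d ≤ Z t (d + 1) := by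
    rintro t d _ ⟨w, hw, rfl⟩
    refine ⟨?_, ?_⟩
    · rcases t with _ | t
      · have : w = 0 := by
          refine TT_ind hw (· = 0) rfl (fun m _ p hp => ?_) fun a b ha hb => by
            rw [ha, hb, add_zero]
          rw [pz_one] at hp
          rw [(Submodule.mem_bot K).1 hp, tmul_zero]
        rw [this, map_zero]
        exact zero_mem _
      · rw [add_assoc, pz_add] at hw
        exact hM.dq_mem hw
    · exact hXX w
  have hH : ∀ t, ∃ ρ : ℤ, ∀ᶠ d in atTop,
      (finrank K (Z t (d + 1)) : ℤ) - finrank K (B t d) = ρ := by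
    intro t
    obtain ⟨s', hs', hle⟩ := TT_le_Yf (c := c) (pc J t) (Set.finite_range (sw g))
    obtain ⟨d0, hd0⟩ := noeth c hs' (Z t)
      (fun d => le_trans inf_le_left (le_trans
        (TT_mono (le_trans (hM.le d) (h.Ug_le_Yf d)) le_rfl) (hle _)))
      (fun d => inf_le_inf_right _ (TT_mono (hM.mono d) le_rfl))
      (fun d j z hz => ⟨hM.smul_TT j hz.1, by
        have e : δ (c j • z) = c j • δ z := dl_smul _ _ _
        change δ (c j • z) = 0
        rw [e, show δ z = 0 from hz.2, smul_zero]⟩)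
    refine num_const _ (fun d => ?_) d0 fun d hd => ?_
    · have := Submodule.finrank_mono (hBZ t d)
      omega
    · have h1 := hd0 d hd (Z t (d + 1) ⊔ B t (d + 1)) le_sup_left fun j z hz => by
        obtain ⟨w, hw, e⟩ := h.kill hκ hf hr hM (Finset.notMem_erase j Finset.univ)
          (Finset.insert_erase (Finset.mem_univ j)).symm Finset.mem_univ hz.1 hz.2
        exact Submodule.mem_sup_right ⟨w, hw, e⟩
      have h2 := Submodule.finrank_mono h1
      have h3 := Submodule.finrank_sup_add_finrank_inf_eq (Z t (d + 1)) (B t (d + 1))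
      have : Module.Finite K (Z t (d + 1) ⊓ B t (d + 1) : Submodule K _) :=
        Submodule.finiteDimensional_of_le (inf_le_left : Z t (d + 1) ⊓ B t (d + 1) ≤ _)
      have h4 : finrank K (B t d) ≤ finrank K (Z t (d + 1) ⊓ B t (d + 1) : Submodule K _) :=
        Submodule.finrank_mono (le_inf (hBZ t d)
          (Submodule.map_mono (TT_mono (hM.mono d) le_rfl)))
      have h5 : d + 1 + 1 = d + 2 := rfl
      rw [h5]
      omega
  choose ρ hρ using hH
  have hsum : ∀ t d, finrank K (B (t + 1) d) + finrank K (Z t d) = finrank K (M d) * n.choose t := by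
    intro t d
    have e : B (t + 1) d = (TT (M d) (pc J t)).map δ :=
      congrArg (fun P => (TT (M d) P).map δ) (pz_add J t)
    rw [← finrank_pc hf hr t, ← finrank_TT, ← rank_add δ (TT (M d) (pc J t)), e]
  have hB0 : ∀ d, finrank K (B 0 d) = 0 := by
    intro d
    refine Nat.eq_zero_of_le_zero (le_trans (Submodule.finrank_map_le _ _) ?_)
    rw [finrank_TT, zero_add, pz_one, finrank_bot, mul_zero]
  have hBn : ∀ d, finrank K (B (n + 1) d) = 0 := by
    intro d
    refine Nat.eq_zero_of_le_zero (le_trans (Submodule.finrank_mono (hBZ _ d)) ?_)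
    have := hsum (n + 1) (d + 1)
    rw [Nat.choose_succ_self] at this
    omega
  have htel : ∀ d m, ∑ k ∈ Finset.range m,
      (-1 : ℤ) ^ k * (finrank K (M (d + 1 + k)) * n.choose k) =
      ∑ k ∈ Finset.range m, (-1 : ℤ) ^ k *
        ((finrank K (Z k (d + k + 1)) : ℤ) - finrank K (B k (d + k))) -
        (-1) ^ m * finrank K (B m (d + m)) := by
    intro d m
    induction m with
    | zero => simp [hB0]
    | succ m ih =>
      have h1 : ((finrank K (B (m + 1) (d + (m + 1))) : ℤ)) + finrank K (Z m (d + m + 1)) =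
          finrank K (M (d + 1 + m)) * n.choose m := by
        rw [show d + 1 + m = d + m + 1 by omega]
        exact_mod_cast hsum m (d + m + 1)
      rw [Finset.sum_range_succ, Finset.sum_range_succ, ih, ← h1]
      ring
  refine ⟨(-1) ^ n * ∑ k ∈ Finset.range (n + 1), (-1) ^ k * ρ k, ?_⟩
  have hev : ∀ᶠ d in atTop, ∀ k ∈ Finset.range (n + 1),
      (finrank K (Z k (d + k + 1)) : ℤ) - finrank K (B k (d + k)) = ρ k := by
    rw [Finset.eventually_all]
    intro k _
    exact (tendsto_add_atTop_nat k).eventually (hρ k)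
  obtain ⟨d0, hd0⟩ := eventually_atTop.1 hev
  refine eventually_atTop.2 ⟨d0 + 1, fun d hd => ?_⟩
  obtain ⟨d, rfl⟩ : ∃ e, d = e + 1 := ⟨d - 1, by omega⟩
  have h1 := htel d (n + 1)
  rw [hBn, Finset.sum_congr rfl fun k hk => congrArg ((-1 : ℤ) ^ k * ·) (hd0 d (by omega) k hk)]
    at h1
  simp only [Nat.cast_zero, mul_zero, sub_zero] at h1
  rw [fwdDiff_iter_eq_sum_shift, ← h1, Finset.mul_sum]
  refine Finset.sum_congr rfl fun k hk => ?_
  obtain ⟨m, rfl⟩ : ∃ m, n = k + m := ⟨n - k, by have := Finset.mem_range.1 hk; omega⟩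
  have h2 : (-1 : ℤ) ^ k * (-1) ^ k = 1 := by rw [← mul_pow]; simp
  rw [Nat.add_sub_cancel_left, smul_eq_mul, smul_eq_mul, mul_one, pow_add]
  linear_combination (-(-1 : ℤ) ^ m * (finrank K (M (d + 1 + k)) * (k + m).choose k)) * h2

theorem sm_rank (hc : Function.Injective (aeval c : MvPolynomial (Fin n) K →ₐ[K] F)) {x : D}
    (hx : x ≠ 0) (k : ℕ) (W : Submodule K D) [Module.Finite K W]
    (hW : ∀ z ∈ Zf K c k, z • x ∈ W) : (k + n).choose n ≤ finrank K W := by
  rw [← finrank_Zf hc k, ← rank_inj (f := sm K F x) (smul_left_injective F hx)]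
  refine Submodule.finrank_mono ?_
  rintro _ ⟨z, hz, rfl⟩
  exact hW z hz

theorem Rel.dom (h : Rel κ c g) (hκ : ∀ l, f l = ∑ a, ∑ b, κ l a b • (X a * X b))
    (hf : ∀ j, (f j).IsHomogeneous 2) (hr : RegAll f)
    (hc : Function.Injective (aeval c : MvPolynomial (Fin n) K →ₐ[K] F)) {e1 e2 : ℕ} {π u : D}
    (h1 : π ∈ Ug K c g 0 e1) (h2 : u ∈ Ug K c g 0 e2) (hπ : π ≠ 0) (hu : u ≠ 0) : π * u ≠ 0 := by
  intro h0
  have hM : Fam c g fun d => (Ug K c g e1 d).map (LinearMap.mulLeft K π) := by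
    refine ⟨fun d => ?_, fun d => Submodule.map_mono (Ug_le fun x hx => by omega), ?_, ?_⟩
    · rw [Ug, Submodule.map_span, Submodule.span_le]
      rintro _ ⟨_, ⟨k, l, z, hz, hk, rfl⟩, rfl⟩
      exact Ug_le (fun x hx => by omega) (Ug_mul h1 (Ug_smul hz (Ug_wd l)))
    · rintro d a _ ⟨x, hx, rfl⟩
      exact ⟨x * g a, Ug_g hx a, (mul_assoc _ _ _).symm⟩
    · rintro d j _ ⟨x, hx, rfl⟩
      exact ⟨c j • x, Ug_smul (Zf_c j) hx, mul_smul_comm _ _ _⟩
  obtain ⟨ρ, hρ⟩ := h.euler hκ hf hr hM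
  have hfin := h.fin_Ug
  have hU : ∀ d, Ug K c g e1 (d + e1) = Ug K c g 0 d := fun d =>
    le_antisymm (Ug_le fun x hx => by omega) (Ug_le fun x hx => by omega)
  refine num_main n e1 e2 _
    (fun d => finrank K (Ug K c g 0 d ⊓ LinearMap.ker (LinearMap.mulLeft K π) : Submodule K D))
    ρ hρ (fun d => ?_) (fun d => ?_) fun d => ?_
  · rw [hU]
    refine sm_rank hc hπ _ _ fun z hz => ⟨z • 1, ?_, by simp⟩
    exact Ug_le (fun x hx => by simp at hx; omega) (Ug_smul hz (Ug_wd []))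
  · have : Module.Finite K
        (Ug K c g 0 (d + e2) ⊓ LinearMap.ker (LinearMap.mulLeft K π) : Submodule K D) :=
      Submodule.finiteDimensional_of_le inf_le_left
    refine sm_rank hc hu _ _ fun z hz => ⟨Ug_le (fun x hx => by omega) (Ug_smul hz h2), ?_⟩
    change π * z • u = 0
    rw [mul_smul_comm, h0, smul_zero]
  · rw [hU, rank_add]
    exact h.finrank_Ug hc d

theorem Ug_all (hfr : ∀ φ : F, ∃ p q : MvPolynomial (Fin n) K, aeval c q ≠ 0 ∧
      φ * aeval c q = aeval c p) {x : D} (hx : x ∈ Submodule.span F (Set.range (wd g)))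
    : ∃ s : F, s ≠ 0 ∧ (∃ k, s ∈ Zf K c k) ∧ ∃ e, s • x ∈ Ug K c g 0 e := by
  induction hx using Submodule.span_induction with
  | mem x hx =>
    obtain ⟨l, rfl⟩ := hx
    exact ⟨1, one_ne_zero, ⟨0, Zf_one⟩, _, (one_smul F (wd g l)).symm ▸ Ug_wd l⟩
  | zero => exact ⟨1, one_ne_zero, ⟨0, Zf_one⟩, 0, by simp⟩
  | add x y _ _ hx hy =>
    obtain ⟨s, hs, ⟨k, hk⟩, e, he⟩ := hx
    obtain ⟨s', hs', ⟨k', hk'⟩, e', he'⟩ := hy
    refine ⟨s * s', mul_ne_zero hs hs', ⟨_, Zf_mul hk hk'⟩, e + 2 * k' + (e' + 2 * k), ?_⟩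
    rw [smul_add]
    refine add_mem ?_ ?_
    · rw [mul_comm s, mul_smul]
      exact Ug_le (fun x hx => by omega) (Ug_smul hk' he)
    · rw [mul_smul]
      exact Ug_le (fun x hx => by omega) (Ug_smul hk he')
  | smul φ x _ hx =>
    obtain ⟨s, hs, ⟨k, hk⟩, e, he⟩ := hx
    obtain ⟨p, q, hq, hpq⟩ := hfr φ
    obtain ⟨k1, h1⟩ := Zf_all (c := c) p
    obtain ⟨k2, h2⟩ := Zf_all (c := c) q
    refine ⟨aeval c q * s, mul_ne_zero hq hs, ⟨_, Zf_mul h2 hk⟩, e + 2 * k1, ?_⟩
    rw [smul_smul, show aeval c q * s * φ = aeval c p * s by rw [← hpq]; ring, mul_smul]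
    exact Ug_smul h1 he

theorem Rel.noZero (h : Rel κ c g) (hκ : ∀ l, f l = ∑ a, ∑ b, κ l a b • (X a * X b))
    (hf : ∀ j, (f j).IsHomogeneous 2) (hr : RegAll f)
    (hc : Function.Injective (aeval c : MvPolynomial (Fin n) K →ₐ[K] F))
    (hfr : ∀ φ : F, ∃ p q : MvPolynomial (Fin n) K, aeval c q ≠ 0 ∧ φ * aeval c q = aeval c p)
    (hgen : Submodule.span F (Set.range (wd g)) = ⊤) : NoZeroDivisors D := by
  refine ⟨fun {x y} h0 => ?_⟩
  by_contra hne
  push Not at hne
  obtain ⟨s, hs, -, e, he⟩ := Ug_all hfr (hgen ▸ Submodule.mem_top : x ∈ _)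
  obtain ⟨s', hs', -, e', he'⟩ := Ug_all hfr (hgen ▸ Submodule.mem_top : y ∈ _)
  refine h.dom hκ hf hr hc he he' (smul_ne_zero hs hne.1) (smul_ne_zero hs' hne.2) ?_
  rw [smul_mul_smul_comm, h0, smul_zero]

end Pool.Agent.Lib.MP_e9c0f3_ag.CL
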