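import Pool.Agent.Lib.MP_e9c0f3_ag.CL.D

/-! The generic Clifford algebra as a division ring. -/

open MvPolynomial Module CliffordAlgebra

namespace Pool.Agent.Lib.MP_e9c0f3_ag.CL

variable {K : Type} [Field K] {n : ℕ}

theorem exists_kap {p : Pol n K} (hp : p.IsHomogeneous 2) :
    ∃ κ : Fin n → Fin n → K, p = ∑ a, ∑ b, κ a b • (X a * X b) := by
  classical
  have hadd : ∀ p q : Pol n K, (∃ κ : Fin n → Fin n → K, p = ∑ a, ∑ b, κ a b • (X a * X b)) →
      (∃ κ : Fin n → Fin n → K, q = ∑ a, ∑ b, κ a b • (X a * X b)) →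
      ∃ κ : Fin n → Fin n → K, p + q = ∑ a, ∑ b, κ a b • (X a * X b) := by
    rintro _ _ ⟨κ, rfl⟩ ⟨κ', rfl⟩
    exact ⟨κ + κ', by simp [add_smul, Finset.sum_add_distrib]⟩
  refine hom_succ hp (fun p => ∃ κ : Fin n → Fin n → K, p = ∑ a, ∑ b, κ a b • (X a * X b))
    ⟨0, by simp⟩ hadd fun i q hq => ?_
  refine hom_succ hq (fun q => ∃ κ : Fin n → Fin n → K, X i * q = ∑ a, ∑ b, κ a b • (X a * X b))
    ⟨0, by simp⟩ (fun a b ha hb => mul_add (X i) a b ▸ hadd _ _ ha hb) fun j r hr => ?_
  refine ⟨Pi.single i (Pi.single j (coeff 0 r)), ?_⟩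
  rw [Finset.sum_eq_single i, Finset.sum_eq_single j]
  · conv_lhs => rw [totalDegree_eq_zero_iff_eq_C.1 ((totalDegree_zero_iff_isHomogeneous _).2 hr)]
    rw [Pi.single_eq_same, Pi.single_eq_same, smul_eq_C_mul]
    ring
  · intro b _ hb
    simp [hb]
  · simp
  · intro b _ hb
    simp [hb]
  · simp

section

variable {F : Type} [Field F] {Q : QuadraticForm F (Fin n → F)}

/-- The generators. -/
noncomputable def gen (Q : QuadraticForm F (Fin n → F)) (a : Fin n) : CliffordAlgebra Q :=
  ι Q (Pi.single a 1)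

theorem gen_span : Submodule.span F (Set.range (wd (gen Q))) = ⊤ := by
  refine eq_top_iff.2 fun x _ => ?_
  induction x using CliffordAlgebra.left_induction with
  | algebraMap r =>
    rw [Algebra.algebraMap_eq_smul_one]
    exact Submodule.smul_mem _ _ (Submodule.subset_span ⟨[], rfl⟩)
  | add x y hx hy => exact add_mem (hx trivial) (hy trivial)
  | ι_mul x m hx =>
    have h1 : ∀ a, (Submodule.span F (Set.range (wd (gen Q)))).map
        (LinearMap.mulLeft F (gen Q a)) ≤ Submodule.span F (Set.range (wd (gen Q))) := by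
      intro a
      rw [Submodule.map_span]
      refine Submodule.span_mono ?_
      rintro _ ⟨_, ⟨l, rfl⟩, rfl⟩
      exact ⟨a :: l, wd_cons a l⟩
    rw [pi_eq_sum_univ' m, map_sum, Finset.sum_mul]
    refine Submodule.sum_mem _ fun a _ => ?_
    rw [map_smul, smul_mul_assoc]
    exact Submodule.smul_mem _ _ (h1 a ⟨x, hx trivial, rfl⟩)

theorem ctr_cons (i a : Fin n) (l : List (Fin n)) :
    contractLeft (Q := Q) (LinearMap.proj i) (wd (gen Q) (a :: l)) =
      (if a = i then wd (gen Q) l else 0) -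
        gen Q a * contractLeft (Q := Q) (LinearMap.proj i) (wd (gen Q) l) := by
  rw [wd_cons, gen, contractLeft_ι_mul]
  split_ifs with h
  · simp [h]
  · simp [Ne.symm h]

theorem ctr_zero {i : Fin n} : ∀ l : List (Fin n), i ∉ l →
    contractLeft (Q := Q) (LinearMap.proj i) (wd (gen Q) l) = 0
  | [], _ => contractLeft_one _ _
  | a :: l, h => by
    rw [List.mem_cons, not_or] at h
    rw [ctr_cons, ctr_zero l h.2, if_neg (Ne.symm h.1), mul_zero, sub_zero]

theorem exists_ctr : ∀ (p : ℕ) (w : Fin p → Fin n),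
    ∃ T : CliffordAlgebra Q →ₗ[F] CliffordAlgebra Q, ∀ u : Fin p → Fin n,
      (∀ i j, w i = u j → i = j) → T (wd (gen Q) (List.ofFn u)) = if u = w then 1 else 0
  | 0, w => ⟨LinearMap.id, fun u _ => by simp [wd, Subsingleton.elim u w]⟩
  | p + 1, w => by
    obtain ⟨T, hT⟩ := exists_ctr p fun i => w i.succ
    refine ⟨T ∘ₗ contractLeft (Q := Q) (LinearMap.proj (w 0)), fun u hu => ?_⟩
    rw [List.ofFn_succ, LinearMap.comp_apply, ctr_cons, ctr_zero, mul_zero, sub_zero]
    · by_cases h : u 0 = w 0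
      · rw [if_pos h, hT _ fun i j e => Fin.succ_injective _ (hu _ _ e)]
        refine if_congr ⟨fun e => funext (Fin.cases h (congrFun e)), ?_⟩ rfl rfl
        rintro rfl
        rfl
      · rw [if_neg h, map_zero, if_neg]
        rintro rfl
        exact h rfl
    · rw [List.mem_ofFn]
      rintro ⟨j, hj⟩
      exact Fin.succ_ne_zero j (hu _ _ hj.symm).symm

end

theorem core {κ : Fin n → Fin n → Fin n → K} {f : Fin n → Pol n K}
    (hκ : ∀ l, f l = ∑ a, ∑ b, κ l a b • (X a * X b)) (hf : ∀ j, (f j).IsHomogeneous 2)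
    (hX : ∀ i, ∃ M, (X i : Pol n K) ^ M ∈ Ideal.span (Set.range f)) :
    ∃ (D : Type) (_ : DivisionRing D) (_ : Algebra K D) (g : Fin n → D),
      (∀ a b, (∀ l, κ l a b = 0 ∧ κ l b a = 0) → g a * g b = -(g b * g a)) ∧
      (∀ s : Fin n → Fin n → K, (∀ a b, s a b = s b a) → (∀ l, ∑ a, ∑ b, κ l a b * s a b = 0) →
        ∑ a, ∑ b, s a b • (g a * g b) = 0) ∧
      ∀ (β : Type) (p : ℕ) (e : Fin p → β → Fin n), (∀ i j a b, e i a = e j b → i = j ∧ a = b) →
        LinearIndependent K fun a : Fin p → β => (List.ofFn fun i => g (e i (a i))).prod := by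
  classical
  let F := FractionRing (Pol n K)
  let c : Fin n → F := fun j => algebraMap (Pol n K) F (X j)
  have hev : ∀ q : Pol n K, aeval c q = algebraMap (Pol n K) F q := fun q =>
    AlgHom.congr_fun (MvPolynomial.algHom_ext (f := aeval c)
      (g := IsScalarTower.toAlgHom K (Pol n K) F) fun i => by simp [c]) q
  let B : LinearMap.BilinForm F (Fin n → F) := Matrix.toBilin' (Matrix.of (bt κ c))
  have hB : ∀ a b, B (Pi.single a 1) (Pi.single b 1) = bt κ c a b := fun a b =>
    Matrix.toBilin'_single _ a b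
  let Q : QuadraticForm F (Fin n → F) := LinearMap.BilinMap.toQuadraticMap B
  have hR : Rel κ c (gen Q) := by
    refine ⟨fun a => ?_, fun a b => ?_⟩
    · rw [gen, ι_sq_scalar, ← hB]
      rfl
    · rw [gen, gen, ι_mul_ι_add_swap, LinearMap.BilinMap.polar_toQuadraticMap, hB, hB]
  have : Nontrivial (CliffordAlgebra Q) :=
    (changeFormEquiv (Q := 0) (Q' := Q) (B := B) (sub_zero _).symm).symm.surjective.nontrivial
  have : NoZeroDivisors (CliffordAlgebra Q) := by
    refine hR.noZero hκ hf (regAll_of_param f (fun i => ⟨2, two_pos, hf i⟩) hX)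
      (fun p q e => IsFractionRing.injective (Pol n K) F (by rwa [← hev, ← hev])) (fun φ => ?_)
      gen_span
    obtain ⟨p, q, hq, rfl⟩ := IsFractionRing.div_surjective (A := Pol n K) φ
    have h1 := IsFractionRing.to_map_ne_zero_of_mem_nonZeroDivisors (K := F) hq
    exact ⟨p, q, by rwa [hev], by rw [hev, hev, div_mul_cancel₀ _ h1]⟩
  have : IsDomain (CliffordAlgebra Q) := NoZeroDivisors.to_isDomain _
  have : FiniteDimensional F (CliffordAlgebra Q) := by
    refine ⟨Submodule.fg_def.2 ⟨_, Set.finite_range (sw (gen Q)), eq_top_iff.2 ?_⟩⟩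
    rw [← gen_span, Submodule.span_le]
    rintro _ ⟨l, rfl⟩
    have h1 : Yf K c (Set.range (sw (gen Q))) (l.length / 2) ≤
        (Submodule.span F (Set.range (sw (gen Q)))).restrictScalars K := by
      refine Submodule.span_le.2 ?_
      rintro _ ⟨z, -, x, hx, rfl⟩
      exact Submodule.smul_mem _ z (Submodule.subset_span hx)
    exact h1 (hR.wd_mem _ l rfl)
  refine ⟨CliffordAlgebra Q, divisionRingOfFiniteDimensional F _,
    (inferInstance : Algebra K (CliffordAlgebra Q)), gen Q, fun a b h => ?_,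
    fun s hs h => ?_, fun β p e he => ?_⟩
  · refine eq_neg_of_add_eq_zero_left ((hR.anti a b).trans ?_)
    simp [bt, h]
  · refine (hR.sum (fun a b => DistribSMul.toAddMonoidHom _ (s a b))
      fun a b => by rw [hs]).trans ?_
    have h1 : ∀ l a b, s a b • algebraMap F (CliffordAlgebra Q) (κ l a b • c l) =
        (κ l a b * s a b) • algebraMap F (CliffordAlgebra Q) (c l) := by
      intro l a b
      rw [Algebra.algebraMap_eq_smul_one, Algebra.algebraMap_eq_smul_one, smul_assoc, smul_smul,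
        mul_comm]
    simp only [DistribSMul.toAddMonoidHom_apply, bt, map_sum, h1]
    refine ((Finset.sum_congr rfl fun a _ => Finset.sum_comm).trans Finset.sum_comm).trans ?_
    simp only [← Finset.sum_smul, h, zero_smul, Finset.sum_const_zero]
  · refine LinearIndependent.restrict_scalars (K := F) ?_ (linearIndependent_iff'.2 ?_)
    · exact smul_left_injective K one_ne_zero
    intro S t h0 a ha
    obtain ⟨T, hT⟩ := exists_ctr (Q := Q) p fun i => e i (a i)
    have h1 : ∀ b : Fin p → β, T (List.ofFn fun i => gen Q (e i (b i))).prod =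
        if b = a then 1 else 0 := by
      intro b
      have h2 := hT (fun i => e i (b i)) fun i j h => (he _ _ _ _ h).1
      rw [wd, List.map_ofFn] at h2
      refine h2.trans (if_congr ⟨fun h => funext fun i => (he _ _ _ _ (congrFun h i)).2, ?_⟩ rfl rfl)
      rintro rfl
      rfl
    have h2 := congrArg T h0
    simpa [map_sum, h1, ha] using h2

end Pool.Agent.Lib.MP_e9c0f3_ag.CL
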